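import Pool.Agent.H929.BG.Stm

/-! # BG: the last step for one group of points, independence (helper390) -/

set_option autoImplicit false

namespace Pool.Agent.H390.BG

open Finset Pool.Agent.TH3.IR Pool.Agent.Y55.Col Pool.Agent.H929.BW Pool.Agent.H929.BG

/-- `k` points of the same multiplicity -/
theorem piece {n k m : ℕ} {β H : ℝ} (hβ : 5 / 2 ≤ β) (hH : 0 < H)
    (hk : 2 ^ (n + 1) * β ≤ k)
    (h : (k : ℝ) * ((m : ℝ) + 2 * (n + 1)) ^ (n + 1) ≤ β * H ^ (n + 1)) :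
    GS n (fun _ : Fin k => m) β H := by
  have hβ0 : 0 < β := by linarith
  have hk0 : 0 < (k : ℝ) := lt_of_lt_of_le (by positivity) hk
  obtain ⟨ρ, hρ⟩ : ∃ ρ : ℝ, ρ = ((k : ℝ) / β) ^ ((1 : ℝ) / (n + 1)) := ⟨_, rfl⟩
  have hq : 0 ≤ (k : ℝ) / β := by positivity
  have hρ0 : 0 ≤ ρ := by
    rw [hρ]
    exact Real.rpow_nonneg hq _
  have hρN : ρ ^ (n + 1) = (k : ℝ) / β := by
    rw [hρ, ← Real.rpow_natCast, ← Real.rpow_mul hq, one_div]
    push_cast
    rw [inv_mul_cancel₀ (by positivity), Real.rpow_one]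
  have hρ2 : 2 ≤ ρ := by
    refine le_of_pow_le_pow_left₀ (n := n + 1) (by omega) hρ0 ?_
    rw [hρN, le_div_iff₀ hβ0]
    exact hk
  have hρpos : 0 < ρ := by linarith
  have hm : (m : ℝ) + 2 * (n + 1) ≤ H / ρ := by
    rw [le_div_iff₀ hρpos]
    refine le_of_pow_le_pow_left₀ (n := n + 1) (by omega) hH.le ?_
    rw [mul_pow, hρN, mul_div_assoc', div_le_iff₀ hβ0]
    linarith
  apply Pool.Agent.H571.BW.t_NODS (Fin k) n _ β H ρ hρ2 hβ
  intro L R μ ν hμ hν hW hs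
  refine SurS_final hμ hν (fun i => ?_) ?_
  · rw [hs, Fintype.card_fin, hρN, div_mul_cancel₀ _ hβ0.ne']
  · rw [Fintype.card_fin]
    refine le_trans ?_ hW
    rw [hρN, div_mul_cancel₀ _ hβ0.ne']
    exact mul_le_mul_of_nonneg_left (by linarith) hk0.le

/-- difference of powers -/
theorem pow_sub_le {x y : ℝ} (hy : 0 ≤ y) (hxy : y ≤ x) (n : ℕ) :
    x ^ (n + 1) - y ^ (n + 1) ≤ (n + 1) * x ^ n * (x - y) := by
  have hx : 0 ≤ x := hy.trans hxy
  induction n with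
  | zero => simp
  | succ n ih =>
    have h1 : x ^ (n + 1 + 1) - y ^ (n + 1 + 1) =
        x * (x ^ (n + 1) - y ^ (n + 1)) + y ^ (n + 1) * (x - y) := by ring
    have h2 : x * (x ^ (n + 1) - y ^ (n + 1)) ≤ x * ((n + 1) * x ^ n * (x - y)) :=
      mul_le_mul_of_nonneg_left ih hx
    have h3 : y ^ (n + 1) * (x - y) ≤ x ^ (n + 1) * (x - y) :=
      mul_le_mul_of_nonneg_right (pow_le_pow_left₀ hy hxy _) (by linarith)
    rw [h1]
    push_cast
    calc x * (x ^ (n + 1) - y ^ (n + 1)) + y ^ (n + 1) * (x - y)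
        ≤ x * ((n + 1) * x ^ n * (x - y)) + x ^ (n + 1) * (x - y) := add_le_add h2 h3
      _ = (n + 1 + 1) * x ^ (n + 1) * (x - y) := by ring

theorem t_FinS : S_FinS := by
  intro n Λ hn hΛ
  refine ⟨3 ^ (n + 2) * ((n + 1) * (1 + 2 * (n + 1)) ^ n * (2 * (n + 1)) * (24 * (1 + Λ)) +
    (n + 1) * (4 * n + 6)), ?_⟩
  intro C hC m r β X hm hβ hβB hX1 hX2 hr
  have hn1 : (1 : ℝ) ≤ n := by exact_mod_cast hn
  have hm1 : (1 : ℝ) ≤ m := by exact_mod_cast hm
  have hg : (m : ℝ) ≤ gg n m := le_gg n m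
  have hg1 : 1 ≤ gg n m := hm1.trans hg
  have hg0 : 0 < gg n m := by linarith
  obtain ⟨N, hN⟩ : ∃ N : ℝ, N = (n : ℝ) + 1 := ⟨_, rfl⟩
  have hN1 : 2 ≤ N := by linarith
  have hΛ0 : 0 ≤ Λ := by linarith
  have hX0 : 0 < X := by nlinarith
  have hβ0 : 0 < β := by linarith
  -- the height
  obtain ⟨H, hH⟩ : ∃ H : ℝ, H = X - (4 * n + 6) := ⟨_, rfl⟩
  have hH1 : 11 * ((m : ℝ) + 2 * (n + 1)) ≤ H := by
    rw [hH]
    linarith
  have hmN : 0 < (m : ℝ) + 2 * (n + 1) := by positivity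
  have hH0 : 0 < H := by linarith
  have hHX : H ≤ X := by
    rw [hH]
    linarith
  -- the number of points
  have key : ∀ k : ℕ, 2 ^ (n + 1) * β ≤ k → r ≤ k →
      (k : ℝ) * ((m : ℝ) + 2 * (n + 1)) ^ (n + 1) ≤ β * H ^ (n + 1) →
      PS n (Multiset.replicate r m) β (X - (4 * n + 6)) := by
    intro k h1 h2 h3
    refine ⟨Fin k, inferInstance, fun _ => m, fun _ => {m}, ?_, fun _ => ind_one le_rfl, ?_⟩
    · rw [← hH]
      exact piece hβ hH0 h1 h3
    · rw [Finset.sum_const, Finset.card_univ, Fintype.card_fin, Multiset.nsmul_singleton]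
      exact (Multiset.replicate_le_replicate m).2 h2
  have e1 : (2 : ℝ) * 2 ^ (n + 1) * ((m : ℝ) + 2 * (n + 1)) ^ (n + 1) ≤ H ^ (n + 1) := by
    calc (2 : ℝ) * 2 ^ (n + 1) * ((m : ℝ) + 2 * (n + 1)) ^ (n + 1)
        ≤ 11 ^ (n + 1) * ((m : ℝ) + 2 * (n + 1)) ^ (n + 1) := by
          apply mul_le_mul_of_nonneg_right _ (by positivity)
          have h1 : (4 : ℝ) ^ (n + 1) ≤ 11 ^ (n + 1) :=
            pow_le_pow_left₀ (by norm_num) (by norm_num) _
          have h2 : (2 : ℝ) ≤ 2 ^ (n + 1) := by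
            calc (2 : ℝ) = 2 ^ 1 := by norm_num
              _ ≤ 2 ^ (n + 1) := pow_le_pow_right₀ (by norm_num) (by omega)
          have h3 : (4 : ℝ) ^ (n + 1) = 2 ^ (n + 1) * 2 ^ (n + 1) := by
            rw [← mul_pow]
            norm_num
          have h4 : (0 : ℝ) < 2 ^ (n + 1) := by positivity
          nlinarith
      _ = (11 * ((m : ℝ) + 2 * (n + 1))) ^ (n + 1) := by rw [mul_pow]
      _ ≤ H ^ (n + 1) := pow_le_pow_left₀ (by positivity) hH1 _
  -- the smallest number of points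
  obtain ⟨k₀, hk₀⟩ : ∃ k₀ : ℕ, k₀ = ⌈2 ^ (n + 1) * β⌉₊ := ⟨_, rfl⟩
  have hk1 : 2 ^ (n + 1) * β ≤ k₀ := by
    rw [hk₀]
    exact Nat.le_ceil _
  have hk2 : (k₀ : ℝ) < 2 ^ (n + 1) * β + 1 := by
    rw [hk₀]
    exact Nat.ceil_lt_add_one (by positivity)
  have hk3 : (k₀ : ℝ) * ((m : ℝ) + 2 * (n + 1)) ^ (n + 1) ≤ β * H ^ (n + 1) := by
    have h1 : (k₀ : ℝ) ≤ β * (2 * 2 ^ (n + 1)) := by
      have h2 : (1 : ℝ) ≤ 2 ^ (n + 1) := one_le_pow₀ (by norm_num)
      nlinarith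
    calc (k₀ : ℝ) * ((m : ℝ) + 2 * (n + 1)) ^ (n + 1)
        ≤ β * (2 * 2 ^ (n + 1)) * ((m : ℝ) + 2 * (n + 1)) ^ (n + 1) :=
          mul_le_mul_of_nonneg_right h1 (by positivity)
      _ = β * (2 * 2 ^ (n + 1) * ((m : ℝ) + 2 * (n + 1)) ^ (n + 1)) := by ring
      _ ≤ β * H ^ (n + 1) := mul_le_mul_of_nonneg_left e1 hβ0.le
  rcases le_total r k₀ with hrk | hrk
  · exact key k₀ hk1 hrk hk3
  · refine key r (hk1.trans (by exact_mod_cast hrk)) le_rfl ?_
    rcases hr with hr | hr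
    · rw [hr]
      push_cast
      rw [zero_mul]
      positivity
    · -- the main estimate
      have f1 : ((m : ℝ) + 2 * (n + 1)) ^ (n + 1) ≤ gg n m ^ (n + 1) +
          (n + 1) * (1 + 2 * (n + 1)) ^ n * (2 * (n + 1)) * gg n m ^ n := by
        have h1 : ((m : ℝ) + 2 * (n + 1)) ^ (n + 1) ≤ (gg n m + 2 * (n + 1)) ^ (n + 1) :=
          pow_le_pow_left₀ hmN.le (by linarith) _
        have h2 := pow_sub_le (x := gg n m + 2 * (n + 1)) (y := gg n m) hg0.le
          (by linarith) n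
        have h3 : (gg n m + 2 * (n + 1)) ^ n ≤ (1 + 2 * (n + 1)) ^ n * gg n m ^ n := by
          rw [← mul_pow]
          apply pow_le_pow_left₀ (by positivity)
          nlinarith
        have h4 : ((n : ℝ) + 1) * (gg n m + 2 * (n + 1)) ^ n * (gg n m + 2 * (n + 1) - gg n m) ≤
            (n + 1) * (1 + 2 * (n + 1)) ^ n * (2 * (n + 1)) * gg n m ^ n := by
          have h5 : gg n m + 2 * ((n : ℝ) + 1) - gg n m = 2 * (n + 1) := by ring
          rw [h5]
          calc ((n : ℝ) + 1) * (gg n m + 2 * (n + 1)) ^ n * (2 * (n + 1))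
              ≤ (n + 1) * ((1 + 2 * (n + 1)) ^ n * gg n m ^ n) * (2 * (n + 1)) := by gcongr
            _ = _ := by ring
        linarith
      have f2 : (r : ℝ) * gg n m ^ n ≤ β * X ^ n * (24 * (1 + Λ)) := by
        have hC0 : 0 ≤ C * X ^ n := by
          have : 0 ≤ C := le_trans (by positivity) hC
          positivity
        have h1 : (r : ℝ) * gg n m ^ n * gg n m ≤ β * X ^ n * (24 * (1 + Λ)) * gg n m := by
          calc (r : ℝ) * gg n m ^ n * gg n m = r * gg n m ^ (n + 1) := by ring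
            _ ≤ β * X ^ (n + 1) := by linarith
            _ = β * X ^ n * X := by ring
            _ ≤ β * X ^ n * (24 * (1 + Λ) * gg n m) := by
                apply mul_le_mul_of_nonneg_left _ (by positivity)
                nlinarith
            _ = _ := by ring
        exact le_of_mul_le_mul_right h1 hg0
      have f3 : β * X ^ (n + 1) - β * ((n + 1) * X ^ n * (4 * n + 6)) ≤ β * H ^ (n + 1) := by
        have h1 := pow_sub_le (x := X) (y := H) hH0.le hHX n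
        have h2 : X - H = 4 * n + 6 := by rw [hH]; ring
        rw [h2] at h1
        have h3 := mul_le_mul_of_nonneg_left h1 hβ0.le
        linarith
      obtain ⟨c, hc⟩ : ∃ c : ℝ, c = ((n : ℝ) + 1) * (1 + 2 * (n + 1)) ^ n * (2 * (n + 1)) :=
        ⟨_, rfl⟩
      have hc0 : 0 ≤ c := by
        rw [hc]
        positivity
      rw [← hc] at f1 hC
      have f4 : β * (c * (24 * (1 + Λ)) + (n + 1) * (4 * n + 6)) ≤ C := by
        refine le_trans ?_ hC
        exact mul_le_mul_of_nonneg_right hβB (by positivity)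
      have f5 := mul_le_mul_of_nonneg_right f4 (show 0 ≤ X ^ n by positivity)
      have f6 := mul_le_mul_of_nonneg_left f2 hc0
      calc (r : ℝ) * ((m : ℝ) + 2 * (n + 1)) ^ (n + 1)
          ≤ r * (gg n m ^ (n + 1) + c * gg n m ^ n) :=
            mul_le_mul_of_nonneg_left f1 (by positivity)
        _ = r * gg n m ^ (n + 1) + c * (r * gg n m ^ n) := by ring
        _ ≤ β * H ^ (n + 1) := by linarith

end Pool.Agent.H390.BG
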